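import Pool.Agent.Lib.H20TD.T
import Pool.Agent.Lib.H58E.Exch

/-!
# H20TD, file B: from the exchange lemma for walks to the exchange property (P1) for connected sets
-/

set_option autoImplicit false

namespace H20TD

open Finset H98P H63F H98M H30F

variable {V : Type*} [Fintype V] [DecidableEq V]

/-- `A` is covered by pairwise disjoint cycles with edges in `G`. -/
def Pi (G : Finset (Sym2 V)) (A : Finset V) : Prop :=
  H58E.Cov (SimpleGraph.fromEdgeSet (G : Set (Sym2 V))) (A : Set V)

omit [Fintype V] [DecidableEq V] in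
theorem pi_dn (G : Finset (Sym2 V)) : Dn (Pi G) := by
  rintro A B hAB ⟨F, h1, h2, h3⟩
  exact ⟨F, h1, h2, fun v hv => h3 v (hAB hv)⟩

omit [Fintype V] [DecidableEq V] in
theorem pi_empty (G : Finset (Sym2 V)) : Pi G ∅ := by
  refine ⟨⊥, bot_le, fun v => Or.inl ?_, fun v hv => absurd hv (by simp)⟩
  simp

omit [Fintype V] [DecidableEq V] in
theorem pi_mono {G G' : Finset (Sym2 V)} (h : G ⊆ G') {A : Finset V} (hA : Pi G A) : Pi G' A := by
  obtain ⟨F, h1, h2, h3⟩ := hA
  exact ⟨F, h1.trans (SimpleGraph.fromEdgeSet_mono (by exact_mod_cast h)), h2, h3⟩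

/-- In a connected set any two vertices are joined by a walk inside it. -/
theorem exists_walk {U : Finset V} {G : Finset (Sym2 V)} (hU : ¬ Disc U G) {b d : V} (hb : b ∈ U)
    (hd : d ∈ U) : ∃ p : (SimpleGraph.fromEdgeSet (G : Set (Sym2 V))).Walk b d,
      ∀ r ∈ p.support, r ∈ U := by
  classical
  by_contra hcon
  refine hU ⟨U.filter fun c => ∃ p : (SimpleGraph.fromEdgeSet (G : Set (Sym2 V))).Walk b c,
    ∀ r ∈ p.support, r ∈ U, U.filter fun c => ¬ ∃ p : (SimpleGraph.fromEdgeSet
      (G : Set (Sym2 V))).Walk b c, ∀ r ∈ p.support, r ∈ U, ?_, ?_, disjoint_filter_filter_not _ _ _,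
      filter_union_filter_not_eq _ _, ?_⟩
  · exact ⟨b, mem_filter.2 ⟨hb, SimpleGraph.Walk.nil, by simpa using hb⟩⟩
  · exact ⟨d, mem_filter.2 ⟨hd, hcon⟩⟩
  · intro x hx y hy hxy
    rw [mem_filter] at hx hy
    obtain ⟨hxU, p, hp⟩ := hx
    refine hy.2 ?_
    by_cases h : x = y
    · subst h
      exact ⟨p, hp⟩
    · have hadj : (SimpleGraph.fromEdgeSet (G : Set (Sym2 V))).Adj x y := by
        rw [SimpleGraph.fromEdgeSet_adj]
        exact ⟨by exact_mod_cast hxy, h⟩
      refine ⟨p.concat hadj, fun r hr => ?_⟩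
      rw [SimpleGraph.Walk.support_concat] at hr
      simp only [List.mem_append, List.mem_singleton] at hr
      rcases hr with hr | hr
      · exact hp r hr
      · rw [hr]
        exact hy.1

/-- (P1) for coverings by disjoint cycles, in the form with a connected set. -/
theorem pi_exchange (G : Finset (Sym2 V)) (A : Finset V) (b d : V) (U : Finset V)
    (hb : Pi G (insert b A)) (hd : Pi G (insert d A)) (hbU : b ∈ U) (hdU : d ∈ U)
    (hU : ¬ Disc U G) (h : ∀ u ∈ U, u ≠ b → u ≠ d → ¬ Pi G (insert u A)) :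
    Pi G (insert b (insert d A)) := by
  obtain ⟨p, hp⟩ := exists_walk hU hbU hdU
  have h1 := H58E.exchange_walk (SimpleGraph.fromEdgeSet (G : Set (Sym2 V))) (A : Set V) b d
    (by simpa [Pi] using hb) (by simpa [Pi] using hd) p
    (fun r hr h1 h2 h3 => h r (hp r hr) h1 h2 (by simpa [Pi] using h3))
  rw [Set.insert_comm] at h1
  simpa [Pi] using h1

theorem pi_P1 (G : Finset (Sym2 V)) (M : Finset V) : P1 G (Pi G) M :=
  fun A _ b d U _ hb hd hbU hdU hU h => pi_exchange G A b d U hb hd hbU hdU hU h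

/-- The topological part: if every vertex lies on a cycle and there is no 2-factor, the poset of the
disconnected sets not covered by disjoint cycles is acyclic. -/
theorem ac_X (G : Finset (Sym2 V)) (h1 : ∀ v, Pi G {v}) (hV : ¬ Pi G univ) :
    AC (Ch fun W : Finset V => Disc W G ∧ ¬ Pi G W) := by
  have h2 := H94Q.ac_fill (N := fun W : Finset V => ¬ Pi G W) (D := fun W => Disc W G)
    (fun M hM hD => by
      have hn : M.Nonempty := by
        rw [nonempty_iff_ne_empty]
        rintro rfl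
        exact hM (pi_empty G)
      obtain ⟨w, hw⟩ := hn
      exact ac_proper (pi_dn G) hD hM (pi_P1 G M) ⟨w, hw, h1 w⟩) univ hV
  refine ac_congr (fun c => ?_) h2
  constructor
  · exact fun h => ⟨fun x hx => ⟨(h.1 x hx).1.2, (h.1 x hx).1.1⟩, h.2⟩
  · exact fun h => ⟨fun x hx => ⟨⟨(h.1 x hx).2, (h.1 x hx).1⟩, subset_univ x⟩, h.2⟩

end H20TD
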