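import Pool.Agent.Lib.H58E.Exch

/-! # H20TD, file X: the exchange lemma for coverings by disjoint cycles of length at least 4 -/

set_option autoImplicit false

namespace H20TD

open SimpleGraph H58E

variable {V : Type*}

/-- no triangle -/
def TF (F : SimpleGraph V) : Prop := ∀ u v w, F.Adj u v → F.Adj v w → ¬ F.Adj u w

/-- `A` is covered by pairwise disjoint cycles of `G` of length at least `4` -/
def CovT (G : SimpleGraph V) (A : Set V) : Prop :=
  ∃ F : SimpleGraph V, F ≤ G ∧ TF F ∧
    (∀ v, (F.neighborSet v).ncard = 0 ∨ (F.neighborSet v).ncard = 2) ∧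
    ∀ v ∈ A, (F.neighborSet v).ncard = 2

theorem tf_rem {F : SimpleGraph V} (h : TF F) (a x : V) : TF (remE F a x) :=
  fun u v w h1 h2 h3 => h u v w h1.1 h2.1 h3.1

theorem tf_add {F : SimpleGraph V} (h : TF F) {a x : V} (hax : a ≠ x)
    (hc : ∀ w, F.Adj a w → ¬ F.Adj w x) : TF (addE F a x hax) := by
  have hc' : ∀ w, F.Adj x w → ¬ F.Adj w a := fun w h1 h2 => hc w h2.symm h1.symm
  intro u v w h1 h2 h3
  rcases h1 with h1 | ⟨h1, h1'⟩ | ⟨h1, h1'⟩
  · rcases h2 with h2 | ⟨h2, h2'⟩ | ⟨h2, h2'⟩
    · rcases h3 with h3 | ⟨h3, h3'⟩ | ⟨h3, h3'⟩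
      · exact h u v w h1 h2 h3
      · subst h3; subst h3'
        exact hc v h1 h2
      · subst h3; subst h3'
        exact hc' v h1 h2
    · subst h2; subst h2'
      rcases h3 with h3 | ⟨h3, h3'⟩ | ⟨h3, h3'⟩
      · exact hc' u h3.symm h1
      · subst h3
        exact F.loopless.irrefl _ h1
      · exact hax h3'.symm
    · subst h2; subst h2'
      rcases h3 with h3 | ⟨h3, h3'⟩ | ⟨h3, h3'⟩
      · exact hc u h3.symm h1
      · exact hax h3'
      · subst h3
        exact F.loopless.irrefl _ h1
  · subst h1; subst h1'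
    rcases h2 with h2 | ⟨h2, h2'⟩ | ⟨h2, h2'⟩
    · rcases h3 with h3 | ⟨h3, h3'⟩ | ⟨h3, h3'⟩
      · exact hc w h3 h2.symm
      · subst h3'
        exact F.loopless.irrefl _ h2
      · exact hax h3
    · exact hax h2.symm
    · subst h2'
      rcases h3 with h3 | ⟨h3, h3'⟩ | ⟨h3, h3'⟩
      · exact F.loopless.irrefl _ h3
      · exact hax h3'
      · exact hax h3
  · subst h1; subst h1'
    rcases h2 with h2 | ⟨h2, h2'⟩ | ⟨h2, h2'⟩
    · rcases h3 with h3 | ⟨h3, h3'⟩ | ⟨h3, h3'⟩
      · exact hc' w h3 h2.symm
      · exact hax h3.symm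
      · subst h3'
        exact F.loopless.irrefl _ h2
    · subst h2'
      rcases h3 with h3 | ⟨h3, h3'⟩ | ⟨h3, h3'⟩
      · exact F.loopless.irrefl _ h3
      · exact hax h3.symm
      · exact hax h3'.symm
    · exact hax h2

section
variable [Finite V]

theorem uniq {F : SimpleGraph V} {a : V} (h : dg F a = 1) {w w' : V} (hw : F.Adj a w)
    (hw' : F.Adj a w') : w' = w := by
  unfold dg at h
  obtain ⟨z, hz⟩ := Set.ncard_eq_one.1 h
  have h1 : w ∈ F.neighborSet a := hw
  have h2 : w' ∈ F.neighborSet a := hw'
  rw [hz] at h1 h2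
  exact h2.trans h1.symm

theorem three {F : SimpleGraph V} {w a x z : V} (h1 : a ≠ x) (h2 : a ≠ z) (h3 : x ≠ z)
    (ha : F.Adj w a) (hx : F.Adj w x) (hz : F.Adj w z) : 3 ≤ dg F w := by
  unfold dg
  have h4 : ({a, x, z} : Set V).ncard = 3 := Set.ncard_eq_three.2 ⟨a, x, z, h1, h2, h3, rfl⟩
  rw [← h4]
  refine Set.ncard_le_ncard ?_ (Set.toFinite _)
  rintro y (rfl | rfl | rfl)
  · exact ha
  · exact hx
  · exact hz

theorem other {F2 : SimpleGraph V} {a x : V} (h : dg F2 a = 2) (hx : F2.Adj a x) :
    ∃ z, z ≠ x ∧ F2.Adj a z := by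
  unfold dg at h
  obtain ⟨p, q, hpq, hs⟩ := Set.ncard_eq_two.1 h
  have h1 : x ∈ F2.neighborSet a := hx
  have hp : F2.Adj a p := by
    have : p ∈ F2.neighborSet a := by rw [hs]; simp
    exact this
  have hq : F2.Adj a q := by
    have : q ∈ F2.neighborSet a := by rw [hs]; simp
    exact this
  rw [hs] at h1
  rcases h1 with rfl | h1
  · exact ⟨q, hpq.symm, hq⟩
  · have : x = q := h1
    subst this
    exact ⟨p, hpq, hp⟩

/-- a good new edge at the vertex `a` -/
theorem good {F F2 : SimpleGraph V} {a : V} (hF2 : TF F2) (h2a : dg F2 a = 2) (hFa : dg F a = 1)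
    (hw : ∀ w, F.Adj a w → dg F w ≤ 2) :
    ∃ v, F2.Adj a v ∧ ¬ F.Adj a v ∧ ∀ w, F.Adj a w → F.Adj w v → ¬ F2.Adj w v := by
  obtain ⟨x, hx2, hxF⟩ := ex_of_lt (F := F) (F2 := F2) (a := a) (by omega)
  by_cases hbad : ∃ w, F.Adj a w ∧ F.Adj w x ∧ F2.Adj w x
  · obtain ⟨w, hw1, hw2, hw3⟩ := hbad
    have hn : ¬ F2.Adj a w := fun h => hF2 a w x h hw3 hx2
    obtain ⟨z, hzx, hz⟩ := other h2a hx2
    have hzw : z ≠ w := fun h => hn (h ▸ hz)
    refine ⟨z, hz, fun h => hzw (uniq hFa hw1 h), fun w' h1 h2 h3 => ?_⟩
    have : w' = w := uniq hFa hw1 h1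
    subst this
    have h4 := three (F := F) (w := w') (a := a) (x := x) (z := z) (F2.ne_of_adj hx2)
      (F2.ne_of_adj hz) hzx.symm hw1.symm hw2 h2
    have := hw w' hw1
    omega
  · push Not at hbad
    exact ⟨x, hx2, hxF, fun w h1 h2 h3 => hbad w h1 h2 h3⟩

theorem rem_ex {F F2 : SimpleGraph V} {v a : V} (hF : dg F v = 2) (hF2 : dg F2 v = 2)
    (h2 : F2.Adj v a) (h1 : ¬ F.Adj v a) : ∃ w, F.Adj v w ∧ ¬ F2.Adj v w := by
  by_contra hcon
  push Not at hcon
  obtain ⟨p, q, hpq, hs⟩ := Set.ncard_eq_two.1 hF
  have hp : F.Adj v p := by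
    have : p ∈ F.neighborSet v := by rw [hs]; simp
    exact this
  have hq : F.Adj v q := by
    have : q ∈ F.neighborSet v := by rw [hs]; simp
    exact this
  have h4 := three (F := F2) (w := v) (a := p) (x := q) (z := a) hpq (fun h => h1 (h ▸ hp))
    (fun h => h1 (h ▸ hq)) (hcon p hp) (hcon q hq) h2
  omega

/-- the state of the walk -/
structure St3 (F1 F2 : SimpleGraph V) (A : Set V) (b d a : V) (F : SimpleGraph V) : Prop where
  le : ∀ u v, F.Adj u v → F1.Adj u v ∨ F2.Adj u v
  tf : TF F
  ab : a ≠ b
  ad : a ≠ d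
  dd : dg F d = 1
  db : dg F b = 2
  da : dg F a = 1
  dv : ∀ v, v ≠ a → v ≠ d → dg F v = 0 ∨ dg F v = 2
  dA : ∀ v ∈ A, v ≠ a → v ≠ d → dg F v = 2

/-- the result of the walk -/
def Res (F1 F2 : SimpleGraph V) (A : Set V) (b d : V) : Prop :=
  ∃ F' : SimpleGraph V, (∀ u v, F'.Adj u v → F1.Adj u v ∨ F2.Adj u v) ∧ TF F' ∧
        (((∀ v, dg F' v = 0 ∨ dg F' v = 2) ∧ (∀ v ∈ A, dg F' v = 2) ∧ dg F' b = 2 ∧
            dg F' d = 2) ∨
          (dg F' b = 1 ∧ dg F' d = 1 ∧ (∀ v, v ≠ b → v ≠ d → dg F' v = 0 ∨ dg F' v = 2) ∧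
            (∀ v ∈ A, dg F' v = 2)))

/-- the combined move: add `a v`, remove `v w` -/
theorem move {F1 F2 : SimpleGraph V}
    (F : SimpleGraph V) (hle : ∀ u v, F.Adj u v → F1.Adj u v ∨ F2.Adj u v) (htf : TF F)
    {a v w : V} (hav : a ≠ v) (hFav : ¬ F.Adj a v) (h2av : F2.Adj a v) (hvw : F.Adj v w)
    (h2vw : ¬ F2.Adj v w) (hwa : w ≠ a) (hc : ∀ w', F.Adj a w' → F.Adj w' v → w' = w) :
    ∃ F' : SimpleGraph V, (∀ u v, F'.Adj u v → F1.Adj u v ∨ F2.Adj u v) ∧ TF F' ∧
      ms F' F2 < ms F F2 ∧ dg F' a = dg F a + 1 ∧ dg F' w + 1 = dg F w ∧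
      ∀ u, u ≠ a → u ≠ w → dg F' u = dg F u := by
  have hvw' : v ≠ w := F.ne_of_adj hvw
  have hn : ¬ (remE F v w).Adj a v := fun h => hFav h.1
  refine ⟨addE (remE F v w) a v hav, ?_, ?_, ?_, ?_, ?_, ?_⟩
  · intro u x hux
    rcases hux with h3 | h3 | h3
    · exact hle u x h3.1
    · rw [h3.1, h3.2]; exact Or.inr h2av
    · rw [h3.1, h3.2]; exact Or.inr h2av.symm
  · refine tf_add (tf_rem htf v w) hav fun w' h1 h2 => ?_
    have := hc w' h1.1 h2.1
    subst this
    exact h2.2.2 ⟨rfl, rfl⟩
  · have h1 := ms_rem_lt F F2 hvw h2vw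
    have h2 := ms_add_lt (remE F v w) F2 hav hn h2av
    omega
  · rw [dg_add_left _ hav hn, dg_rem_other F hav hwa.symm]
  · rw [dg_add_other _ hav hwa hvw'.symm, dg_rem_right F hvw]
  · intro u hua huw
    by_cases huv : u = v
    · subst huv
      rw [dg_add_right _ hav hn, dg_rem_left F hvw]
    · rw [dg_add_other _ hav hua huv, dg_rem_other F huv huw]

theorem walk_ind3 (F1 F2 : SimpleGraph V) (A : Set V) (b d : V) (hbd : b ≠ d)
    (htf2 : TF F2) (h1d : dg F1 d = 0) (h2b : dg F2 b = 0)
    (h2 : ∀ v, dg F2 v = 0 ∨ dg F2 v = 2) (h2A : ∀ v ∈ A, dg F2 v = 2)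
    (h1A : ∀ v ∈ A, dg F1 v = 2) :
    ∀ (n : ℕ) (F : SimpleGraph V) (a : V), ms F F2 < n → St3 F1 F2 A b d a F →
      Res F1 F2 A b d := by
  intro n
  have hAb : b ∉ A := fun h => by have := h2A b h; omega
  have hAd : d ∉ A := fun h => by have := h1A d h; omega
  have hd1 : ∀ u, ¬ F1.Adj u d := fun u h => by
    have := adj_pos h.symm
    omega
  induction n with
  | zero =>
    intro F a hn hS
    omega
  | succ n ih =>
    intro F a hn hS
    have hd2 : ∀ u, F.Adj u d → F2.Adj u d := fun u h =>
      (hS.le u d h).resolve_left (hd1 u)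
    rcases h2 a with h0 | h2a
    · -- remove an edge
      obtain ⟨x, hxF, hx2⟩ := ex_of_lt (F := F2) (F2 := F) (a := a) (by have := hS.da; omega)
      have hax : a ≠ x := F.ne_of_adj hxF
      have la := dg_rem_left F hxF
      have lx := dg_rem_right F hxF
      have lo : ∀ v, v ≠ a → v ≠ x → dg (remE F a x) v = dg F v :=
        fun v h3 h4 => dg_rem_other F h3 h4
      have hda := hS.da
      have hxd : x ≠ d := by
        rintro rfl
        exact hx2 (hd2 a hxF)
      have hle : ∀ u v, (remE F a x).Adj u v → F1.Adj u v ∨ F2.Adj u v :=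
        fun u v huv => hS.le u v huv.1
      have hd' : dg (remE F a x) d = 1 := by
        rw [lo d hS.ad.symm hxd.symm]; exact hS.dd
      have hxx : dg F x = 2 := by
        have := adj_pos hxF.symm
        rcases hS.dv x hax.symm hxd with h3 | h3 <;> omega
      have haA : a ∉ A := fun h => by have := h2A a h; omega
      by_cases hxb : x = b
      · subst hxb
        refine ⟨remE F a x, hle, tf_rem hS.tf a x, Or.inr ⟨by omega, hd', ?_, ?_⟩⟩
        · intro v hvx hvd
          by_cases hva : v = a
          · subst hva; left; omega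
          · rw [lo v hva hvx]; exact hS.dv v hva hvd
        · intro v hv
          have hva : v ≠ a := fun h => haA (h ▸ hv)
          have hvx : v ≠ x := fun h => hAb (h ▸ hv)
          have hvd : v ≠ d := fun h => hAd (h ▸ hv)
          rw [lo v hva hvx]; exact hS.dA v hv hva hvd
      · refine ih (remE F a x) x ?_ ⟨hle, tf_rem hS.tf a x, hxb, hxd, hd', ?_, by omega, ?_, ?_⟩
        · have := ms_rem_lt F F2 hxF hx2
          omega
        · rw [lo b hS.ab.symm (Ne.symm hxb)]; exact hS.db
        · intro v hvx hvd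
          by_cases hva : v = a
          · subst hva; left; omega
          · rw [lo v hva hvx]; exact hS.dv v hva hvd
        · intro v hv hvx hvd
          have hva : v ≠ a := fun h => haA (h ▸ hv)
          rw [lo v hva hvx]; exact hS.dA v hv hva hvd
    · -- add an edge
      obtain ⟨v, hv2, hvF, hgood⟩ := good (F := F) htf2 h2a hS.da (fun w hw => by
        by_cases hwd : w = d
        · rw [hwd, hS.dd]; omega
        · rcases hS.dv w (F.ne_of_adj hw).symm hwd with h3 | h3 <;> omega)
      have hav : a ≠ v := F2.ne_of_adj hv2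
      have hvb : v ≠ b := by
        rintro rfl
        have := adj_pos hv2.symm
        omega
      have h2v : dg F2 v = 2 := by
        have := adj_pos hv2.symm
        rcases h2 v with h3 | h3 <;> omega
      have hda := hS.da
      by_cases hvd : v = d
      · subst hvd
        have la := dg_add_left F hav hvF
        have lx := dg_add_right F hav hvF
        have hdd := hS.dd
        have lo : ∀ u, u ≠ a → u ≠ v → dg (addE F a v hav) u = dg F u :=
          fun u h3 h4 => dg_add_other F hav h3 h4
        refine ⟨addE F a v hav, ?_, ?_, Or.inl ⟨?_, ?_, ?_, by omega⟩⟩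
        · intro u x hux
          rcases hux with h3 | h3 | h3
          · exact hS.le u x h3
          · rw [h3.1, h3.2]; exact Or.inr hv2
          · rw [h3.1, h3.2]; exact Or.inr hv2.symm
        · exact tf_add hS.tf hav fun w h3 h4 => hgood w h3 h4 (hd2 w h4)
        · intro u
          by_cases hua : u = a
          · subst hua; right; omega
          · by_cases huv : u = v
            · subst huv; right; omega
            · rw [lo u hua huv]; exact hS.dv u hua huv
        · intro u hu
          by_cases hua : u = a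
          · subst hua; omega
          · have huv : u ≠ v := fun h => hAd (h ▸ hu)
            rw [lo u hua huv]; exact hS.dA u hu hua huv
        · rw [lo b hS.ab.symm hvb.symm]; exact hS.db
      · rcases hS.dv v hav.symm hvd with hv0 | hv2'
        · -- `v` is not covered
          have la := dg_add_left F hav hvF
          have lx := dg_add_right F hav hvF
          have lo : ∀ u, u ≠ a → u ≠ v → dg (addE F a v hav) u = dg F u :=
            fun u h3 h4 => dg_add_other F hav h3 h4
          refine ih (addE F a v hav) v ?_ ⟨?_, ?_, hvb, hvd, ?_, ?_, by omega, ?_, ?_⟩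
          · have := ms_add_lt F F2 hav hvF hv2
            omega
          · intro u x hux
            rcases hux with h3 | h3 | h3
            · exact hS.le u x h3
            · rw [h3.1, h3.2]; exact Or.inr hv2
            · rw [h3.1, h3.2]; exact Or.inr hv2.symm
          · refine tf_add hS.tf hav fun w _ h4 => ?_
            have := adj_pos h4.symm
            omega
          · rw [lo d hS.ad.symm (Ne.symm hvd)]; exact hS.dd
          · rw [lo b hS.ab.symm hvb.symm]; exact hS.db
          · intro u huv hud
            by_cases hua : u = a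
            · subst hua; right; omega
            · rw [lo u hua huv]; exact hS.dv u hua hud
          · intro u hu huv hud
            by_cases hua : u = a
            · subst hua; omega
            · rw [lo u hua huv]; exact hS.dA u hu hua hud
        · -- `v` is covered
          obtain ⟨w, hvw, h2vw, hc⟩ : ∃ w, F.Adj v w ∧ ¬ F2.Adj v w ∧
              ∀ w', F.Adj a w' → F.Adj w' v → w' = w := by
            by_cases hcom : ∃ w, F.Adj a w ∧ F.Adj w v
            · obtain ⟨w, h3, h4⟩ := hcom
              exact ⟨w, h4.symm, fun h5 => hgood w h3 h4 h5.symm, fun w' h5 _ => uniq hS.da h3 h5⟩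
            · obtain ⟨w, h3, h4⟩ := rem_ex hv2' h2v hv2.symm (fun h => hvF h.symm)
              exact ⟨w, h3, h4, fun w' h5 h6 => absurd ⟨w', h5, h6⟩ hcom⟩
          have hwa : w ≠ a := fun h => hvF (h ▸ hvw.symm)
          have hwd : w ≠ d := fun h => h2vw (h ▸ hd2 v (h ▸ hvw))
          have hww : dg F w = 2 := by
            have := adj_pos hvw.symm
            rcases hS.dv w hwa hwd with h3 | h3 <;> omega
          obtain ⟨F', k1, k2, k3, k4, k5, k6⟩ := move F hS.le hS.tf hav hvF hv2 hvw h2vw hwa hc
          by_cases hwb : w = b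
          · subst hwb
            refine ⟨F', k1, k2, Or.inr ⟨by omega, ?_, ?_, ?_⟩⟩
            · rw [k6 d hS.ad.symm hwd.symm]; exact hS.dd
            · intro u huw hud
              by_cases hua : u = a
              · subst hua; right; omega
              · rw [k6 u hua huw]; exact hS.dv u hua hud
            · intro u hu
              have huw : u ≠ w := fun h => hAb (h ▸ hu)
              have hud : u ≠ d := fun h => hAd (h ▸ hu)
              by_cases hua : u = a
              · subst hua; omega
              · rw [k6 u hua huw]; exact hS.dA u hu hua hud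
          · refine ih F' w (by omega) ⟨k1, k2, hwb, hwd, ?_, ?_, by omega, ?_, ?_⟩
            · rw [k6 d hS.ad.symm hwd.symm]; exact hS.dd
            · rw [k6 b hS.ab.symm (Ne.symm hwb)]; exact hS.db
            · intro u huw hud
              by_cases hua : u = a
              · subst hua; right; omega
              · rw [k6 u hua huw]; exact hS.dv u hua hud
            · intro u hu huw hud
              by_cases hua : u = a
              · subst hua; omega
              · rw [k6 u hua huw]; exact hS.dA u hu hua hud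

/-- closing two ends with a path through unused vertices, without a triangle -/
theorem path_closeT (G : SimpleGraph V) {c d : V} (p : G.Walk c d) :
    p.IsPath → c ≠ d → ∀ F : SimpleGraph V, F ≤ G → TF F → dg F c = 1 → dg F d = 1 →
      ¬ F.Adj c d → (∀ w, F.Adj c w → ¬ F.Adj w d) →
      (∀ v ∈ p.support, v ≠ c → v ≠ d → dg F v = 0) →
      (∀ v, v ≠ c → v ≠ d → dg F v = 0 ∨ dg F v = 2) →
      ∃ F' : SimpleGraph V, F' ≤ G ∧ TF F' ∧ (∀ v, dg F' v = 0 ∨ dg F' v = 2) ∧
        dg F' c = 2 ∧ dg F' d = 2 ∧ ∀ v, dg F v = 2 → dg F' v = 2 := by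
  induction p with
  | nil => intro _ h; exact absurd rfl h
  | @cons c x d h q ih =>
    intro hp hcd F hFG htf hc hd hcd' hcm hin hot
    have hcx : c ≠ x := G.ne_of_adj h
    rw [SimpleGraph.Walk.cons_isPath_iff] at hp
    by_cases hxd : x = d
    · subst hxd
      have lc := dg_add_left F hcx hcd'
      have lx := dg_add_right F hcx hcd'
      have lo : ∀ v, v ≠ c → v ≠ x → dg (addE F c x hcx) v = dg F v :=
        fun v h3 h4 => dg_add_other F hcx h3 h4
      refine ⟨addE F c x hcx, ?_, tf_add htf hcx hcm, ?_, by omega, by omega, ?_⟩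
      · intro u v huv
        rcases huv with h3 | h3 | h3
        · exact hFG h3
        · rw [h3.1, h3.2]; exact h
        · rw [h3.1, h3.2]; exact h.symm
      · intro v
        by_cases hvc : v = c
        · subst hvc; right; omega
        · by_cases hvx : v = x
          · subst hvx; right; omega
          · rw [lo v hvc hvx]; exact hot v hvc hvx
      · intro v hv
        have hvc : v ≠ c := by rintro rfl; omega
        have hvx : v ≠ x := by rintro rfl; omega
        rw [lo v hvc hvx]; exact hv
    · have hx0 : dg F x = 0 := hin x (by simp) hcx.symm hxd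
      have hncx : ¬ F.Adj c x := fun h3 => by
        have := adj_pos h3.symm
        omega
      have lc := dg_add_left F hcx hncx
      have lx := dg_add_right F hcx hncx
      have lo : ∀ v, v ≠ c → v ≠ x → dg (addE F c x hcx) v = dg F v :=
        fun v h3 h4 => dg_add_other F hcx h3 h4
      obtain ⟨F', hF1, hF0, hF2, hF3, hF4, hF5⟩ := ih hp.1 hxd (addE F c x hcx) (by
        intro u v huv
        rcases huv with h3 | h3 | h3
        · exact hFG h3
        · rw [h3.1, h3.2]; exact h
        · rw [h3.1, h3.2]; exact h.symm)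
        (tf_add htf hcx fun w _ h4 => by
          have := adj_pos h4.symm
          omega) (by omega)
        (by rw [lo d hcd.symm (Ne.symm hxd)]; exact hd) (by
          rintro (h3 | h3 | h3)
          · have := adj_pos h3
            omega
          · exact hxd h3.2.symm
          · exact hcd h3.2.symm)
        (by
          intro w hw1 hw2
          have hwc : w = c := by
            rcases hw1 with h3 | h3 | h3
            · have := adj_pos h3
              omega
            · exact absurd h3.1.symm hcx
            · exact h3.2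
          subst hwc
          rcases hw2 with h3 | h3 | h3
          · exact hcd' h3
          · exact hxd h3.2.symm
          · exact hcx h3.1)
        (by
          intro v hv hvx hvd
          have hvc : v ≠ c := fun h3 => hp.2 (h3 ▸ hv)
          rw [lo v hvc hvx]
          exact hin v (by simp [hv]) hvc hvd)
        (by
          intro v hvx hvd
          by_cases hvc : v = c
          · subst hvc; right; omega
          · rw [lo v hvc hvx]; exact hot v hvc hvd)
      refine ⟨F', hF1, hF0, hF2, hF5 c (by omega), hF4, ?_⟩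
      intro v hv
      have hvc : v ≠ c := by rintro rfl; omega
      have hvx : v ≠ x := by rintro rfl; omega
      exact hF5 v (by rw [lo v hvc hvx]; exact hv)

/-- the result of the walk exists -/
theorem res_ex (F1 F2 : SimpleGraph V) (A : Set V) (b d : V) (hbd : b ≠ d)
    (htf1 : TF F1) (htf2 : TF F2) (h1d : dg F1 d = 0) (h1b : dg F1 b = 2) (h2b : dg F2 b = 0)
    (h2d : dg F2 d = 2) (h1 : ∀ v, dg F1 v = 0 ∨ dg F1 v = 2)
    (h2 : ∀ v, dg F2 v = 0 ∨ dg F2 v = 2) (h1A : ∀ v ∈ A, dg F1 v = 2)
    (h2A : ∀ v ∈ A, dg F2 v = 2) : Res F1 F2 A b d := by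
  have hAb : b ∉ A := fun h => by have := h2A b h; omega
  have hAd : d ∉ A := fun h => by have := h1A d h; omega
  obtain ⟨a, ha2, ha1⟩ := ex_of_lt (F := F1) (F2 := F2) (a := d) (by omega)
  have hda : d ≠ a := F2.ne_of_adj ha2
  have hab : a ≠ b := by
    rintro rfl
    have := adj_pos ha2.symm
    omega
  have h2a : dg F2 a = 2 := by
    have := adj_pos ha2.symm
    rcases h2 a with h3 | h3 <;> omega
  have hno : ∀ w, ¬ F1.Adj d w := fun w h => by
    have := adj_pos h
    omega
  rcases h1 a with h1a | h1a
  · have ld := dg_add_left F1 hda ha1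
    have la := dg_add_right F1 hda ha1
    have lo : ∀ v, v ≠ d → v ≠ a → dg (addE F1 d a hda) v = dg F1 v :=
      fun v h3 h4 => dg_add_other F1 hda h3 h4
    refine walk_ind3 F1 F2 A b d hbd htf2 h1d h2b h2 h2A h1A _ (addE F1 d a hda) a
      (Nat.lt_succ_self _) ⟨?_, tf_add htf1 hda fun w h3 _ => hno w h3, hab, hda.symm, by omega,
        by rw [lo b hbd hab.symm]; exact h1b, by omega, ?_, ?_⟩
    · intro u v huv
      rcases huv with h3 | h3 | h3
      · exact Or.inl h3
      · rw [h3.1, h3.2]; exact Or.inr ha2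
      · rw [h3.1, h3.2]; exact Or.inr ha2.symm
    · intro v hva hvd
      rw [lo v hvd hva]; exact h1 v
    · intro v hv hva hvd
      rw [lo v hvd hva]; exact h1A v hv
  · obtain ⟨w, hw1, hw2⟩ := rem_ex (F := F1) (F2 := F2) (v := a) (a := d) h1a h2a ha2.symm
      (fun h => ha1 h.symm)
    have hwd : w ≠ d := fun h => hno a (h ▸ hw1.symm)
    have hww : dg F1 w = 2 := by
      have := adj_pos hw1.symm
      rcases h1 w with h3 | h3 <;> omega
    obtain ⟨F', k1, k2, k3, k4, k5, k6⟩ := move (F1 := F1) (F2 := F2) F1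
      (fun u v h => Or.inl h) htf1 hda ha1 ha2 hw1 hw2 hwd (fun w' h3 _ => absurd h3 (hno w'))
    by_cases hwb : w = b
    · subst hwb
      refine ⟨F', k1, k2, Or.inr ⟨by omega, by omega, ?_, ?_⟩⟩
      · intro u huw hud
        rw [k6 u hud huw]; exact h1 u
      · intro u hu
        have huw : u ≠ w := fun h => hAb (h ▸ hu)
        have hud : u ≠ d := fun h => hAd (h ▸ hu)
        rw [k6 u hud huw]; exact h1A u hu
    · refine walk_ind3 F1 F2 A b d hbd htf2 h1d h2b h2 h2A h1A _ F' w
        (Nat.lt_succ_self _) ⟨k1, k2, hwb, hwd, by omega, ?_, by omega, ?_, ?_⟩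
      · rw [k6 b hbd (Ne.symm hwb)]; exact h1b
      · intro u huw hud
        rw [k6 u hud huw]; exact h1 u
      · intro u hu huw hud
        rw [k6 u hud huw]; exact h1A u hu

/-- **Exchange lemma** for coverings by disjoint cycles of length at least `4`. -/
theorem exchangeT (G : SimpleGraph V) (A : Set V) (b d : V)
    (h1 : CovT G (insert b A)) (h2 : CovT G (insert d A)) (p : G.Walk b d) (hp : p.IsPath)
    (hin : ∀ r ∈ p.support, r ≠ b → r ≠ d → ¬ CovT G (insert r A)) :
    CovT G (insert d (insert b A)) := by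
  obtain ⟨F1, hG1, ht1, hF1, hA1⟩ := h1
  obtain ⟨F2, hG2, ht2, hF2, hA2⟩ := h2
  by_cases hbd : b = d
  · subst hbd
    exact ⟨F1, hG1, ht1, hF1, by simpa using hA1⟩
  by_cases hd1 : dg F1 d = 0
  swap
  · refine ⟨F1, hG1, ht1, hF1, ?_⟩
    intro v hv
    rcases hv with rfl | hv
    · rcases hF1 v with h3 | h3
      · exact absurd h3 hd1
      · exact h3
    · exact hA1 v hv
  by_cases hb2 : dg F2 b = 0
  swap
  · refine ⟨F2, hG2, ht2, hF2, ?_⟩
    intro v hv
    rcases hv with rfl | rfl | hv
    · exact hA2 v (Set.mem_insert _ _)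
    · rcases hF2 v with h3 | h3
      · exact absurd h3 hb2
      · exact h3
    · exact hA2 v (Set.mem_insert_of_mem _ hv)
  have hr1 : ∀ r ∈ p.support, r ≠ b → r ≠ d → dg F1 r = 0 := by
    intro r hr hrb hrd
    rcases hF1 r with h3 | h3
    · exact h3
    · exfalso
      apply hin r hr hrb hrd
      refine ⟨F1, hG1, ht1, hF1, ?_⟩
      intro v hv
      rcases hv with rfl | hv
      · exact h3
      · exact hA1 v (Set.mem_insert_of_mem _ hv)
  have hr2 : ∀ r ∈ p.support, r ≠ b → r ≠ d → dg F2 r = 0 := by
    intro r hr hrb hrd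
    rcases hF2 r with h3 | h3
    · exact h3
    · exfalso
      apply hin r hr hrb hrd
      refine ⟨F2, hG2, ht2, hF2, ?_⟩
      intro v hv
      rcases hv with rfl | hv
      · exact h3
      · exact hA2 v (Set.mem_insert_of_mem _ hv)
  have hd2 : dg F2 d = 2 := hA2 d (Set.mem_insert _ _)
  have hb1 : dg F1 b = 2 := hA1 b (Set.mem_insert _ _)
  obtain ⟨F', hle, htf, hF'⟩ := res_ex F1 F2 A b d hbd ht1 ht2 hd1 hb1 hb2 hd2 hF1 hF2
    (fun v hv => hA1 v (Set.mem_insert_of_mem _ hv))
    (fun v hv => hA2 v (Set.mem_insert_of_mem _ hv))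
  have hF'G : F' ≤ G := by
    intro u v huv
    rcases hle u v huv with h3 | h3
    · exact hG1 h3
    · exact hG2 h3
  rcases hF' with ⟨k1, k2, k3, k4⟩ | ⟨k1, k2, k3, k4⟩
  · refine ⟨F', hF'G, htf, k1, ?_⟩
    intro v hv
    rcases hv with rfl | rfl | hv
    · exact k4
    · exact k3
    · exact k2 v hv
  · by_cases hcom : ∃ u, F'.Adj b u ∧ F'.Adj u d
    · -- insert `d` and the path into the cycle of `b` in `F1`
      obtain ⟨u, hbu, hud⟩ := hcom
      have hbu1 : F1.Adj b u := (hle b u hbu).resolve_right fun h => by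
        have := adj_pos h
        omega
      have hud2 : F2.Adj u d := (hle u d hud).resolve_left fun h => by
        have := adj_pos h.symm
        omega
      have hub : b ≠ u := F1.ne_of_adj hbu1
      have hudn : u ≠ d := F2.ne_of_adj hud2
      have hn1 : ∀ w, ¬ F1.Adj w d := fun w h => by
        have := adj_pos h.symm
        omega
      have hnn : ¬ (remE F1 b u).Adj u d := fun h => hn1 u h.1
      have lb := dg_rem_left F1 hbu1
      have lu := dg_rem_right F1 hbu1
      have ld : dg (remE F1 b u) d = dg F1 d := dg_rem_other F1 (Ne.symm hbd) hudn.symm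
      have ku := dg_add_left (remE F1 b u) hudn hnn
      have kd := dg_add_right (remE F1 b u) hudn hnn
      have kb : dg (addE (remE F1 b u) u d hudn) b = dg (remE F1 b u) b :=
        dg_add_other _ hudn hub hbd
      have ko : ∀ v, v ≠ b → v ≠ u → v ≠ d → dg (addE (remE F1 b u) u d hudn) v = dg F1 v :=
        fun v g1 g2 g3 => by rw [dg_add_other _ hudn g2 g3, dg_rem_other F1 g1 g2]
      have huu : dg F1 u = 2 := by
        have := adj_pos hbu1.symm
        rcases hF1 u with h3 | h3
        · unfold dg at this; omega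
        · exact h3
      have hbp := adj_pos hbu1
      obtain ⟨F'', m1, m0, m2, m3, m4, m5⟩ := path_closeT G p hp hbd
        (addE (remE F1 b u) u d hudn) (by
          intro x y hxy
          rcases hxy with h3 | h3 | h3
          · exact hG1 h3.1
          · rw [h3.1, h3.2]; exact hG2 hud2
          · rw [h3.1, h3.2]; exact hG2 hud2.symm)
        (tf_add (tf_rem ht1 b u) hudn fun w _ h4 => hn1 w h4.1) (by omega) (by omega) (by
          rintro (h3 | h3 | h3)
          · exact hn1 b h3.1
          · exact hub h3.1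
          · exact hbd h3.1) (by
          intro w h3 h4
          have hwu : w = u := by
            rcases h4 with h5 | h5 | h5
            · exact absurd h5.1 (hn1 w)
            · exact h5.1
            · exact absurd h5.2 hudn.symm
          subst hwu
          rcases h3 with h5 | h5 | h5
          · exact h5.2.1 ⟨rfl, rfl⟩
          · exact hub h5.1
          · exact hbd h5.1)
        (by
          intro v hv hvb hvd
          have h5 := hr1 v hv hvb hvd
          have hvu : v ≠ u := by rintro rfl; omega
          rw [ko v hvb hvu hvd]; exact h5)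
        (by
          intro v hvb hvd
          by_cases hvu : v = u
          · subst hvu; right; omega
          · rw [ko v hvb hvu hvd]; exact hF1 v)
      refine ⟨F'', m1, m0, m2, ?_⟩
      intro v hv
      by_cases hvd : v = d
      · subst hvd; exact m4
      · by_cases hvb : v = b
        · subst hvb; exact m3
        · have hvA : v ∈ A := by
            rcases hv with h5 | h5 | h5
            · exact absurd h5 hvd
            · exact absurd h5 hvb
            · exact h5
          refine m5 v ?_
          by_cases hvu : v = u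
          · subst hvu; omega
          · rw [ko v hvb hvu hvd]
            exact hA1 v (Set.mem_insert_of_mem _ hvA)
    · have hz : ∀ v ∈ p.support, v ≠ b → v ≠ d → dg F' v = 0 := by
        intro v hv hvb hvd
        by_contra hc
        have : 0 < dg F' v := Nat.pos_of_ne_zero hc
        unfold dg at this
        rw [Set.ncard_pos (Set.toFinite _)] at this
        obtain ⟨u, hu⟩ := this
        rcases hle v u hu with h3 | h3
        · have := adj_pos h3
          have := hr1 v hv hvb hvd
          omega
        · have := adj_pos h3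
          have := hr2 v hv hvb hvd
          omega
      have hnbd : ¬ F'.Adj b d := by
        intro h3
        rcases hle b d h3 with h4 | h4
        · have := adj_pos h4.symm
          omega
        · have := adj_pos h4
          omega
      obtain ⟨F'', m1, m0, m2, m3, m4, m5⟩ := path_closeT G p hp hbd F' hF'G htf k1 k2 hnbd
        (fun w h3 h4 => hcom ⟨w, h3, h4⟩) hz k3
      refine ⟨F'', m1, m0, m2, ?_⟩
      intro v hv
      rcases hv with rfl | rfl | hv
      · exact m4
      · exact m3
      · exact m5 v (k4 v hv)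

/-- walk form -/
theorem exchangeT_walk (G : SimpleGraph V) (A : Set V) (b d : V)
    (h1 : CovT G (insert b A)) (h2 : CovT G (insert d A)) (p : G.Walk b d)
    (hin : ∀ r ∈ p.support, r ≠ b → r ≠ d → ¬ CovT G (insert r A)) :
    CovT G (insert d (insert b A)) := by
  classical
  exact exchangeT G A b d h1 h2 p.bypass p.bypass_isPath
    (fun r hr => hin r (p.support_bypass_subset_support hr))

end

end H20TD
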