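import Pool.Agent.Lib.H20TD.B
import Pool.Agent.Lib.H20TD.X

/-!
# H20TD, file C: the topological part for coverings by disjoint cycles of length at least `4`
-/

set_option autoImplicit false

namespace H20TD

open Finset H98P H63F H98M H30F

variable {V : Type*} [Fintype V] [DecidableEq V]

/-- `A` is covered by pairwise disjoint cycles of length at least `4` with edges in `G`. -/
def PiT (G : Finset (Sym2 V)) (A : Finset V) : Prop :=
  CovT (SimpleGraph.fromEdgeSet (G : Set (Sym2 V))) (A : Set V)

omit [Fintype V] [DecidableEq V] in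
theorem piT_dn (G : Finset (Sym2 V)) : Dn (PiT G) := by
  rintro A B hAB ⟨F, h1, h0, h2, h3⟩
  exact ⟨F, h1, h0, h2, fun v hv => h3 v (hAB hv)⟩

omit [Fintype V] [DecidableEq V] in
theorem piT_empty (G : Finset (Sym2 V)) : PiT G ∅ := by
  refine ⟨⊥, bot_le, fun u v w h => absurd h (by simp), fun v => Or.inl ?_,
    fun v hv => absurd hv (by simp)⟩
  simp

omit [Fintype V] [DecidableEq V] in
theorem piT_mono {G G' : Finset (Sym2 V)} (h : G ⊆ G') {A : Finset V} (hA : PiT G A) :
    PiT G' A := by
  obtain ⟨F, h1, h0, h2, h3⟩ := hA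
  exact ⟨F, h1.trans (SimpleGraph.fromEdgeSet_mono (by exact_mod_cast h)), h0, h2, h3⟩

/-- (P1) for coverings by disjoint cycles of length at least `4`, in the form with a connected
set. -/
theorem piT_exchange (G : Finset (Sym2 V)) (A : Finset V) (b d : V) (U : Finset V)
    (hb : PiT G (insert b A)) (hd : PiT G (insert d A)) (hbU : b ∈ U) (hdU : d ∈ U)
    (hU : ¬ Disc U G) (h : ∀ u ∈ U, u ≠ b → u ≠ d → ¬ PiT G (insert u A)) :
    PiT G (insert b (insert d A)) := by
  obtain ⟨p, hp⟩ := exists_walk hU hbU hdU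
  have h1 := exchangeT_walk (SimpleGraph.fromEdgeSet (G : Set (Sym2 V))) (A : Set V) b d
    (by simpa [PiT] using hb) (by simpa [PiT] using hd) p
    (fun r hr h1 h2 h3 => h r (hp r hr) h1 h2 (by simpa [PiT] using h3))
  rw [Set.insert_comm] at h1
  simpa [PiT] using h1

theorem piT_P1 (G : Finset (Sym2 V)) (M : Finset V) : P1 G (PiT G) M :=
  fun A _ b d U _ hb hd hbU hdU hU h => piT_exchange G A b d U hb hd hbU hdU hU h

/-- The topological part: if every vertex lies on a cycle of length at least `4` and there is no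
2-factor without triangles, the poset of the disconnected sets not covered by disjoint cycles of
length at least `4` is acyclic. -/
theorem ac_XT (G : Finset (Sym2 V)) (h1 : ∀ v, PiT G {v}) (hV : ¬ PiT G univ) :
    AC (Ch fun W : Finset V => Disc W G ∧ ¬ PiT G W) := by
  have h2 := H94Q.ac_fill (N := fun W : Finset V => ¬ PiT G W) (D := fun W => Disc W G)
    (fun M hM hD => by
      have hn : M.Nonempty := by
        rw [nonempty_iff_ne_empty]
        rintro rfl
        exact hM (piT_empty G)
      obtain ⟨w, hw⟩ := hn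
      exact ac_proper (piT_dn G) hD hM (piT_P1 G M) ⟨w, hw, h1 w⟩) univ hV
  refine ac_congr (fun c => ?_) h2
  constructor
  · exact fun h => ⟨fun x hx => ⟨(h.1 x hx).1.2, (h.1 x hx).1.1⟩, h.2⟩
  · exact fun h => ⟨fun x hx => ⟨⟨(h.1 x hx).2, (h.1 x hx).1⟩, subset_univ x⟩, h.2⟩

end H20TD
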