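import Pool.Agent.Lib.H94Q.Q
import Pool.Agent.Lib.H98M.M0

/-!
# H20TD: the dual tree lemma

`K` a complex on the vertices of a connected graph `G[M]` with the exchange property (P1), some vertex of
`M` a vertex of `K`: the complex of the sets `A` with `M - A` not in `K` is acyclic, hence so is the poset of the
proper subsets of `M` which are not in `K` (if `M` is not in `K`).
-/

set_option autoImplicit false

namespace H20TD

open Finset H98P H63F H98M H30F

variable {V : Type*} [Fintype V] [DecidableEq V]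

theorem disc_single (x : V) (G : Finset (Sym2 V)) : ¬ Disc {x} G := by
  rintro ⟨C, D, ⟨c, hc⟩, ⟨d, hd⟩, hCD, hU, -⟩
  have h1 : c = x := mem_singleton.1 (hU ▸ mem_union_left _ hc)
  have h2 : d = x := mem_singleton.1 (hU ▸ mem_union_right _ hd)
  exact disjoint_left.1 hCD hc (by rw [h1, ← h2]; exact hd)

/-- Adding a neighbour of a vertex of a connected set. -/
theorem conn_insert {C : Finset V} {G : Finset (Sym2 V)} (hC : ¬ Disc C G) {x y : V} (hx : x ∈ C)
    (hxy : s(x, y) ∈ G) : ¬ Disc (insert y C) G := by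
  rintro ⟨P, Q, hP, hQ, hPQ, hU, hE⟩
  by_cases hy : y ∈ C
  · rw [insert_eq_of_mem hy] at hU
    exact hC ⟨P, Q, hP, hQ, hPQ, hU, hE⟩
  have hxU : x ∈ P ∪ Q := by
    rw [hU]
    exact mem_insert_of_mem hx
  have hyU : y ∈ P ∪ Q := by
    rw [hU]
    exact mem_insert_self _ _
  have key : ∀ P Q : Finset V, Disjoint P Q → P ∪ Q = insert y C →
      (∀ a ∈ P, ∀ b ∈ Q, s(a, b) ∉ G) → x ∈ P → Q.Nonempty → False := by
    intro P Q hPQ hU hE hxP hQ
    have hyP : y ∈ P := by
      have h1 : y ∈ P ∪ Q := by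
        rw [hU]
        exact mem_insert_self _ _
      rcases mem_union.1 h1 with h | h
      · exact h
      · exact absurd hxy (hE x hxP y h)
    refine hC ⟨P.erase y, Q, ⟨x, mem_erase.2 ⟨fun h => hy (h ▸ hx), hxP⟩⟩, hQ, ?_, ?_, ?_⟩
    · exact hPQ.mono_left (erase_subset _ _)
    · ext z
      rw [mem_union, mem_erase]
      constructor
      · rintro (⟨h1, h2⟩ | h)
        · have : z ∈ insert y C := hU ▸ mem_union_left _ h2
          exact (mem_insert.1 this).resolve_left h1
        · have h3 : z ∈ insert y C := hU ▸ mem_union_right _ h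
          refine (mem_insert.1 h3).resolve_left fun h4 => ?_
          exact disjoint_left.1 hPQ hyP (h4 ▸ h)
      · intro h
        have h3 : z ∈ P ∪ Q := by
          rw [hU]
          exact mem_insert_of_mem h
        rcases mem_union.1 h3 with h4 | h4
        · exact Or.inl ⟨fun h5 => hy (h5 ▸ h), h4⟩
        · exact Or.inr h4
    · exact fun a ha b hb => hE a (mem_of_mem_erase ha) b hb
  rcases mem_union.1 hxU with h | h
  · exact key P Q hPQ hU hE h hQ
  · exact key Q P hPQ.symm (by rw [union_comm]; exact hU)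
      (fun a ha b hb => by rw [Sym2.eq_swap]; exact hE b hb a ha) h hP

/-- A connected set with at least two elements, one of them `b`, stays connected after the removal of some
`y` different from `b`. -/
theorem exists_noncut {U : Finset V} {G : Finset (Sym2 V)} (hU : ¬ Disc U G) {b : V} (hb : b ∈ U)
    (h2 : (U.erase b).Nonempty) : ∃ y ∈ U, y ≠ b ∧ ¬ Disc (U.erase y) G := by
  classical
  have hS : ((U.powerset.filter fun C => b ∈ C ∧ C ≠ U ∧ ¬ Disc C G)).Nonempty := by
    refine ⟨{b}, ?_⟩
    rw [mem_filter, mem_powerset]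
    refine ⟨singleton_subset_iff.2 hb, mem_singleton_self _, ?_, disc_single b G⟩
    intro h
    obtain ⟨c, hc⟩ := h2
    rw [← h] at hc
    simp at hc
  obtain ⟨C, hC, hmax⟩ := exists_max_image _ (fun C : Finset V => C.card) hS
  rw [mem_filter, mem_powerset] at hC
  obtain ⟨hCU, hbC, hne, hCc⟩ := hC
  obtain ⟨x, hx, y, hy, hyC, hxy⟩ : ∃ x ∈ C, ∃ y ∈ U, y ∉ C ∧ s(x, y) ∈ G := by
    by_contra hcon
    push Not at hcon
    refine hU ⟨C, U \ C, ⟨b, hbC⟩, ?_, disjoint_sdiff, union_sdiff_of_subset hCU, ?_⟩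
    · rw [sdiff_nonempty]
      exact fun h => hne (subset_antisymm hCU h)
    · intro x hx y hy
      rw [mem_sdiff] at hy
      exact hcon x hx y hy.1 hy.2
  have h3 : insert y C = U := by
    by_contra h4
    have h5 := hmax (insert y C) (by
      rw [mem_filter, mem_powerset]
      exact ⟨insert_subset hy hCU, mem_insert_of_mem hbC, h4, conn_insert hCc hx hxy⟩)
    rw [card_insert_of_notMem hyC] at h5
    omega
  refine ⟨y, hy, fun h => hyC (h ▸ hbC), ?_⟩
  rw [← h3, erase_insert hyC]
  exact hCc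

/-- The exchange property (P1) on `M`. -/
def P1 (G : Finset (Sym2 V)) (K : Finset V → Prop) (M : Finset V) : Prop :=
  ∀ A ⊆ M, ∀ b d : V, ∀ U ⊆ M, K (insert b A) → K (insert d A) → b ∈ U → d ∈ U → ¬ Disc U G →
    (∀ u ∈ U, u ≠ b → u ≠ d → ¬ K (insert u A)) → K (insert b (insert d A))

/-- The vertex `c` nearest to `b`. -/
theorem nearest {G : Finset (Sym2 V)} {K : Finset V → Prop} {M : Finset V} (hM : ¬ Disc M G)
    (hP : P1 G K M) {b c : V} (hb : b ∈ M) (hKb : K {b}) (hc : c ∈ M) (hcb : c ≠ b) (hKc : K {c}) :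
    ∃ d ∈ M, d ≠ b ∧ K {b, d} := by
  classical
  have hS : ((M.powerset.filter fun U => b ∈ U ∧ ¬ Disc U G ∧ ∃ d ∈ U, d ≠ b ∧ K {d})).Nonempty := by
    refine ⟨M, ?_⟩
    rw [mem_filter, mem_powerset]
    exact ⟨Subset.rfl, hb, hM, c, hc, hcb, hKc⟩
  obtain ⟨U, hU, hmin⟩ := exists_min_image _ (fun C : Finset V => C.card) hS
  rw [mem_filter, mem_powerset] at hU
  obtain ⟨hUM, hbU, hUc, d, hd, hdb, hKd⟩ := hU
  obtain ⟨y, hy, hyb, hyc⟩ := exists_noncut hUc hbU ⟨d, mem_erase.2 ⟨hdb, hd⟩⟩
  have h1 : ∀ u ∈ U, u ≠ b → u ≠ y → ¬ K {u} := by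
    intro u hu hub huy hKu
    have h5 := hmin (U.erase y) (by
      rw [mem_filter, mem_powerset]
      exact ⟨(erase_subset _ _).trans hUM, mem_erase.2 ⟨hyb.symm, hbU⟩, hyc, u,
        mem_erase.2 ⟨huy, hu⟩, hub, hKu⟩)
    have h6 := card_erase_lt_of_mem hy
    omega
  have hyd : y = d := by
    by_contra h
    exact h1 d hd hdb (fun h' => h h'.symm) hKd
  subst hyd
  refine ⟨y, hUM hy, hyb, ?_⟩
  have := hP ∅ (empty_subset _) b y U hUM (by simpa using hKb) (by simpa using hKd) hbU hy hUc
    (fun u hu hub huy => by simpa using h1 u hu hub huy)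
  simpa using this

/-- DUAL TREE LEMMA, simplicial form. -/
theorem treeDual (G : Finset (Sym2 V)) : ∀ (n : ℕ) (M : Finset V) (K : Finset V → Prop), M.card ≤ n → Dn K →
    M.Nonempty → ¬ Disc M G → P1 G K M → (¬ K ∅ ∨ ∃ w ∈ M, K {w}) →
    AC fun A => A ⊆ M ∧ ¬ K (M \ A) := by
  classical
  intro n
  induction n with
  | zero =>
    intro M K h0 _ hn
    exact absurd hn.card_pos (by omega)
  | succ n ih =>
    intro M K hcard hK hn hM hP hv
    rcases hv with hv | hv
    · refine ac_congr (K := fun A => A ⊆ M) (fun A => ?_) (ac_simplex hn)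
      exact ⟨fun h => ⟨h, fun h1 => hv (hK _ _ (empty_subset _) h1)⟩, fun h => h.1⟩
    obtain ⟨w, hw, hKw⟩ := hv
    have hDn : Dn fun A => A ⊆ M ∧ ¬ K (M \ A) := fun A B hAB h =>
      ⟨hAB.trans h.1, fun h1 => h.2 (hK _ _ (sdiff_subset_sdiff Subset.rfl hAB) h1)⟩
    by_cases h1 : (M.erase w).Nonempty
    · obtain ⟨b, hb, hbw, hbc⟩ := exists_noncut hM hw h1
      have hwb : w ∈ M.erase b := mem_erase.2 ⟨hbw.symm, hw⟩
      have hcb : (M.erase b).card ≤ n := by
        have := card_erase_lt_of_mem hb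
        omega
      -- deletion
      have hdel : AC fun A => A ⊆ M.erase b ∧ ¬ K (M.erase b \ A) :=
        ih (M.erase b) K hcb hK ⟨w, hwb⟩ hbc
          (fun A hA x y U hU => hP A (hA.trans (erase_subset _ _)) x y U (hU.trans (erase_subset _ _)))
          (Or.inr ⟨w, hwb, hKw⟩)
      -- link
      have hlink : AC fun A => A ⊆ M.erase b ∧ ¬ K (insert b (M.erase b \ A)) := by
        refine ih (M.erase b) (fun A => K (insert b A)) hcb
          (fun A B hAB h => hK _ _ (insert_subset_insert _ hAB) h) ⟨w, hwb⟩ hbc ?_ ?_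
        · intro A hA x y U hU hx hy hxU hyU hUc hu
          have h2 := hP (insert b A) (insert_subset hb (hA.trans (erase_subset _ _))) x y U
            (hU.trans (erase_subset _ _)) (by
              have h3 : K (insert b (insert x A)) := hx
              rwa [insert_comm] at h3)
            (by
              have h3 : K (insert b (insert y A)) := hy
              rwa [insert_comm] at h3) hxU hyU hUc
            (fun u hu1 hu2 hu3 h => hu u hu1 hu2 hu3 (by
              show K (insert b (insert u A))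
              rwa [insert_comm] at h))
          show K (insert b (insert x (insert y A)))
          rw [insert_comm b x, insert_comm b y]
          exact h2
        · by_cases h2 : K {b}
          · obtain ⟨d, hd, hdb, hKd⟩ := nearest hM hP hb h2 hw hbw.symm hKw
            exact Or.inr ⟨d, mem_erase.2 ⟨hdb, hd⟩, hKd⟩
          · left
            simpa using h2
      have hcone : AC fun A => A ⊆ M ∧ ¬ K (M.erase b \ A) := by
        refine H96H.ac_cone ?_ b ?_
        · intro A B hAB h
          exact ⟨hAB.trans h.1, fun h3 => h.2 (hK _ _ (sdiff_subset_sdiff Subset.rfl hAB) h3)⟩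
        · intro A hA
          refine ⟨insert_subset hb hA.1, fun h3 => hA.2 ?_⟩
          have : M.erase b \ insert b A = M.erase b \ A := by
            ext z
            simp only [mem_sdiff, mem_erase, mem_insert]
            tauto
          rwa [this] at h3
      have hdn1 : Dn fun A => A ⊆ M.erase b ∧ ¬ K (insert b (M.erase b \ A)) := fun A B hAB h =>
        ⟨hAB.trans h.1, fun h3 => h.2
          (hK _ _ (insert_subset_insert _ (sdiff_subset_sdiff Subset.rfl hAB)) h3)⟩
      have hdn2 : Dn fun A => A ⊆ M ∧ ¬ K (M.erase b \ A) := fun A B hAB h =>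
        ⟨hAB.trans h.1, fun h3 => h.2 (hK _ _ (sdiff_subset_sdiff Subset.rfl hAB) h3)⟩
      have hU := ac_union hdn1 hdn2 hlink hcone (by
        refine ac_congr (fun A => ?_) hdel
        constructor
        · rintro ⟨h3, h4⟩
          exact ⟨⟨h3, fun h5 => h4 (hK _ _ (subset_insert _ _) h5)⟩, h3.trans (erase_subset _ _), h4⟩
        · rintro ⟨⟨h3, -⟩, -, h4⟩
          exact ⟨h3, h4⟩)
      refine ac_congr (fun A => ?_) hU
      constructor
      · rintro (⟨h3, h4⟩ | ⟨h3, h4⟩)
        · refine ⟨h3.trans (erase_subset _ _), fun h5 => h4 ?_⟩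
          have hbA : b ∉ A := fun h => (mem_erase.1 (h3 h)).1 rfl
          have : insert b (M.erase b \ A) = M \ A := by
            ext z
            simp only [mem_insert, mem_sdiff, mem_erase]
            constructor
            · rintro (rfl | h)
              · exact ⟨hb, hbA⟩
              · exact ⟨h.1.2, h.2⟩
            · intro h
              by_cases hz : z = b
              · exact Or.inl hz
              · exact Or.inr ⟨⟨hz, h.1⟩, h.2⟩
          rwa [this]
        · refine ⟨h3, fun h5 => h4 (hK _ _ (sdiff_subset_sdiff (erase_subset _ _) Subset.rfl) h5)⟩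
      · rintro ⟨h3, h4⟩
        by_cases hbA : b ∈ A
        · right
          refine ⟨h3, fun h5 => h4 ?_⟩
          have : M \ A = M.erase b \ A := by
            ext z
            simp only [mem_sdiff, mem_erase]
            constructor
            · exact fun h => ⟨⟨fun h' => h.2 (h' ▸ hbA), h.1⟩, h.2⟩
            · exact fun h => ⟨h.1.2, h.2⟩
          rwa [this]
        · left
          refine ⟨fun z hz => mem_erase.2 ⟨fun h => hbA (h ▸ hz), h3 hz⟩, fun h5 => h4 ?_⟩
          have : insert b (M.erase b \ A) = M \ A := by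
            ext z
            simp only [mem_insert, mem_sdiff, mem_erase]
            constructor
            · rintro (rfl | h)
              · exact ⟨hb, hbA⟩
              · exact ⟨h.1.2, h.2⟩
            · intro h
              by_cases hz : z = b
              · exact Or.inl hz
              · exact Or.inr ⟨⟨hz, h.1⟩, h.2⟩
          rwa [← this]
    · -- M = {w}: the complex is void
      rw [not_nonempty_iff_eq_empty] at h1
      have hMw : M = {w} := by
        rw [← insert_erase hw, h1]
        rfl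
      intro z hz _
      refine ⟨fun _ => 0, fun s hs => absurd rfl hs, fun r => ?_⟩
      have hz0 : ∀ s, z s = 0 := by
        intro s
        by_contra h2
        obtain ⟨h3, h4⟩ := hz s h2
        apply h4
        refine hK _ _ ?_ hKw
        rw [hMw]
        exact sdiff_subset
      rw [hz0 r]
      simp [bd]

/-- DUAL TREE LEMMA, poset form: `Y_M` is acyclic. -/
theorem ac_proper {G : Finset (Sym2 V)} {K : Finset V → Prop} (hK : Dn K) {M : Finset V}
    (hM : ¬ Disc M G) (hKM : ¬ K M) (hP : P1 G K M) (hv : ∃ w ∈ M, K {w}) :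
    AC (Ch fun W : Finset V => W < M ∧ ¬ K W) := by
  classical
  obtain ⟨w, hw, hKw⟩ := hv
  have h1 := treeDual G M.card M K le_rfl hK ⟨w, hw⟩ hM hP (Or.inr ⟨w, hw, hKw⟩)
  have h2 := ac_sd (K := fun A => A ⊆ M ∧ ¬ K (M \ A))
    (fun A B hAB h => ⟨hAB.trans h.1, fun h3 => h.2 (hK _ _ (sdiff_subset_sdiff Subset.rfl hAB) h3)⟩)
    ⟨empty_subset _, by rwa [sdiff_empty]⟩ h1
  have h3 : AC (Ch fun W : (Finset V)ᵒᵈ =>
      (OrderDual.ofDual W ⊆ M ∧ ¬ K (M \ OrderDual.ofDual W)) ∧ (OrderDual.ofDual W).Nonempty) := by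
    refine ac_congr (K := Ch fun G : Finset V => (G ⊆ M ∧ ¬ K (M \ G)) ∧ G.Nonempty) (fun c => ?_) h2
    constructor
    · rintro ⟨h4, h5⟩
      exact ⟨h4, fun x hx y hy => (h5 x hx y hy).symm⟩
    · rintro ⟨h4, h5⟩
      exact ⟨h4, fun x hx y hy => (h5 x hx y hy).symm⟩
  refine ac_closure (fun W : Finset V => OrderDual.toDual (M \ W))
    (fun W : (Finset V)ᵒᵈ => M \ OrderDual.ofDual W) ?_ ?_ ?_ ?_ ?_ h3
  · rintro W ⟨hW, hKW⟩
    refine ⟨⟨sdiff_subset, ?_⟩, ?_⟩
    · show ¬ K (M \ (M \ W))
      rw [Finset.sdiff_sdiff_eq_self hW.le]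
      exact hKW
    · show (M \ W).Nonempty
      rw [sdiff_nonempty]
      exact hW.not_ge
  · rintro W ⟨⟨h4, h5⟩, h6⟩
    refine ⟨?_, h5⟩
    refine lt_of_le_of_ne sdiff_subset fun h7 => ?_
    obtain ⟨x, hx⟩ := h6
    have h8 := h4 hx
    rw [← h7] at h8
    exact (mem_sdiff.1 h8).2 hx
  · intro W W' _ _ h
    exact sdiff_subset_sdiff (Subset.refl M) h
  · intro W W' _ _ h
    exact sdiff_subset_sdiff (Subset.refl M) h
  · rintro W ⟨hW, -⟩
    show W ⊆ M \ (M \ W)
    rw [Finset.sdiff_sdiff_eq_self hW.le]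

end H20TD
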